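import Pool.Agent.EXLow.Final

set_option autoImplicit false

namespace Pool.Agent.Results.MP_47df6d_lc.NotLow

open Pool.Agent.EXLow

/-- There is a 1-generic oracle `A` computable from the halting problem which is low for
EX-learning of reals but not low for EX-learning of measures: some class of computable measures
is EX-learnable with oracle `A` but by no computable learner. -/
theorem result :
    ∃ A : ℕ → Bool, OneGeneric A ∧ LimitComputable A ∧ LowReals A ∧ ¬ LowMeasures A := by
  refine ⟨orac, oneGeneric_orac, limitComputable_orac,
    lowReals_of_generic oneGeneric_orac limitComputable_orac, fun h => ?_⟩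
  obtain ⟨idx, hc, hidx⟩ := exists_index
  have hV : ∀ μ ∈ classV, CompMeasure μ := by
    rintro μ (⟨p, ρ, _, rfl⟩ | ⟨i, _, rfl⟩)
    · exact ⟨inferInstance, idx ρ, hidx ρ⟩
    · exact ⟨inferInstance, idx (cI i), hidx (cI i)⟩
  obtain ⟨L, hL, hLV⟩ := h classV hV
    ⟨learnA idx orac, computableIn_learnA hc orac, learnA_learns hidx⟩
  exact not_learnable hL hLV

end Pool.Agent.Results.MP_47df6d_lc.NotLow
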